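import Pool.Agent.W500.CS.Stm2

/-!
CQ-CHN: the square inequality for the densities.
-/

set_option autoImplicit false

open MeasureTheory Metric Set Filter Topology
open scoped Convolution

namespace Pool.Agent.W391.CQ.Chn

/-- the bumps -/
noncomputable def bmp (n : ℕ) : ContDiffBump (0 : ℂ) where
  rIn := 1 / (2 * ((n : ℝ) + 1))
  rOut := 1 / ((n : ℝ) + 1)
  rIn_pos := by positivity
  rIn_lt_rOut := by
    apply one_div_lt_one_div_of_lt
    · positivity
    · have : (0 : ℝ) < (n : ℝ) + 1 := by positivity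
      linarith

/-- the mollifiers -/
noncomputable def rh (n : ℕ) : ℂ → ℝ := (bmp n).normed volume

theorem rh_nonneg (n : ℕ) (x : ℂ) : 0 ≤ rh n x := (bmp n).nonneg_normed x

theorem rh_cont (n : ℕ) : Continuous (rh n) := (bmp n).continuous_normed

theorem rh_cd (n : ℕ) : ContDiff ℝ 1 (rh n) := (bmp n).contDiff_normed (n := 1)

theorem rh_cs (n : ℕ) : HasCompactSupport (rh n) := (bmp n).hasCompactSupport_normed

theorem rh_int (n : ℕ) : Integrable (rh n) volume := (bmp n).integrable_normed

theorem rh_one (n : ℕ) : ∫ x, rh n x = 1 := (bmp n).integral_normed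

theorem rh_neg (n : ℕ) (x : ℂ) : rh n (-x) = rh n x := (bmp n).normed_neg x

theorem rh_supp (n : ℕ) (x : ℂ) (h : rh n x ≠ 0) : ‖x‖ < 1 / ((n : ℝ) + 1) := by
  have h1 : x ∈ Function.support (rh n) := h
  unfold rh at h1
  rw [ContDiffBump.support_normed_eq] at h1
  simpa [bmp] using h1

theorem rOut_tend : Tendsto (fun n => (bmp n).rOut) atTop (𝓝 0) :=
  tendsto_one_div_add_atTop_nhds_zero_nat

/-- the mollified function -/
noncomputable def wn (w : ℂ → ℝ) (n : ℕ) : ℂ → ℝ :=
  (rh n ⋆[ContinuousLinearMap.lsmul ℝ ℝ, volume] w)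

theorem wn_eq (w : ℂ → ℝ) (n : ℕ) (y : ℂ) : wn w n y = ∫ t, rh n (y - t) * w t := by
  unfold wn
  rw [convolution_lsmul_swap]
  rfl

theorem wn_bound (w : ℂ → ℝ) (n : ℕ) (Λ : ℝ) (hw : ∀ z, |w z| ≤ Λ) (y : ℂ) : |wn w n y| ≤ Λ := by
  rw [wn_eq]
  have h1 : Integrable (fun t => rh n (y - t) * Λ) volume :=
    ((rh_int n).comp_sub_left y).mul_const Λ
  have h2 : ‖∫ t, rh n (y - t) * w t‖ ≤ ∫ t, rh n (y - t) * Λ := by
    apply norm_integral_le_of_norm_le h1
    refine Eventually.of_forall fun t => ?_
    rw [norm_mul, Real.norm_of_nonneg (rh_nonneg _ _)]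
    exact mul_le_mul_of_nonneg_left (hw t) (rh_nonneg _ _)
  have h3 : ∫ t, rh n (y - t) * Λ = Λ := by
    rw [integral_mul_const, integral_sub_left_eq_self (rh n) volume y, rh_one, one_mul]
  rw [h3] at h2
  exact h2

theorem locInt (w : ℂ → ℝ) (hw : Measurable w) (Λ : ℝ) (hwΛ : ∀ z, |w z| ≤ Λ) :
    LocallyIntegrable w volume := by
  apply (locallyIntegrable_const Λ).mono hw.aestronglyMeasurable
  refine Eventually.of_forall fun t => ?_
  exact (hwΛ t).trans (le_abs_self Λ)

theorem wn_cd (w : ℂ → ℝ) (n : ℕ) (hw : LocallyIntegrable w volume) : ContDiff ℝ 1 (wn w n) :=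
  (rh_cs n).contDiff_convolution_left _ (rh_cd n) hw

theorem wn_fderiv (w : ℂ → ℝ) (n : ℕ) (hw : LocallyIntegrable w volume) (y v : ℂ) :
    fderiv ℝ (wn w n) y v = ∫ t, w t * fderiv ℝ (rh n) (y - t) v := by
  have h1 := (rh_cs n).hasFDerivAt_convolution_left (ContinuousLinearMap.lsmul ℝ ℝ)
    (rh_cd n) hw y
  have h2 : fderiv ℝ (wn w n) y = _ := h1.fderiv
  rw [h2, convolution_eq_swap]
  have h3 : ConvolutionExistsAt (fderiv ℝ (rh n)) w y
      ((ContinuousLinearMap.lsmul ℝ ℝ).precompL ℂ) volume :=
    ((rh_cs n).fderiv ℝ).convolutionExists_left _ ((rh_cd n).continuous_fderiv one_ne_zero) hw y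
  rw [ContinuousLinearMap.integral_apply h3.integrable_swap]
  apply integral_congr_ae
  refine Eventually.of_forall fun t => ?_
  simp only [ContinuousLinearMap.precompL_apply, ContinuousLinearMap.lsmul_apply, smul_eq_mul]
  ring

/-- the derivative of the mollification, through the measure -/
theorem wn_fderiv_mu (μ : Measure ℂ) (w σ : ℂ → ℝ) (U : Set ℂ) (v : ℂ)
    (hw : LocallyIntegrable w volume)
    (hyp : ∀ φ : ℂ → ℝ, ContDiff ℝ 1 φ → HasCompactSupport φ → tsupport φ ⊆ U →
      - ∫ z, w z * fderiv ℝ φ z v = ∫ z, φ z * σ z ∂μ)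
    (n : ℕ) (y : ℂ) (hy : closedBall y (1 / ((n : ℝ) + 1)) ⊆ U) :
    fderiv ℝ (wn w n) y v = ∫ z, rh n (y - z) * σ z ∂μ := by
  have hsub : Function.support (fun t => rh n (y - t)) ⊆ closedBall y (1 / ((n : ℝ) + 1)) := by
    intro t ht
    have := rh_supp n (y - t) ht
    rw [mem_closedBall, dist_comm, dist_eq_norm]
    exact this.le
  have h1 := hyp (fun t => rh n (y - t)) ((rh_cd n).comp (contDiff_const.sub contDiff_id))
    (HasCompactSupport.of_support_subset_isCompact (isCompact_closedBall _ _) hsub)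
    ((closure_minimal hsub isClosed_closedBall).trans hy)
  rw [wn_fderiv w n hw, ← h1, ← integral_neg]
  apply integral_congr_ae
  refine Eventually.of_forall fun t => ?_
  have h2 : HasFDerivAt (fun t => rh n (y - t)) (-(fderiv ℝ (rh n) (y - t))) t := by
    have e1 : HasFDerivAt (rh n) (fderiv ℝ (rh n) (y - t)) (y - t) :=
      ((rh_cd n).differentiable one_ne_zero (y - t)).hasFDerivAt
    have e2 : HasFDerivAt (fun t : ℂ => y - t) (-(ContinuousLinearMap.id ℝ ℂ)) t := by
      simpa using (hasFDerivAt_id t).const_sub y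
    have e3 := e1.comp t e2
    have e4 : (fderiv ℝ (rh n) (y - t)).comp (-(ContinuousLinearMap.id ℝ ℂ)) =
        -(fderiv ℝ (rh n) (y - t)) := by
      ext; simp
    rw [e4] at e3
    exact e3
  simp only [h2.fderiv]
  simp

theorem core (μ : Measure ℂ) [IsFiniteMeasure μ] (w σ : ℂ → ℝ) (Λ Mσ : ℝ) (hΛ : 0 ≤ Λ)
    (hw : Measurable w) (hwΛ : ∀ z, |w z| ≤ Λ) (hσ : Measurable σ) (hσM : ∀ z, |σ z| ≤ Mσ)
    (U : Set ℂ) (hU : IsOpen U) (v : ℂ)
    (hyp : ∀ φ : ℂ → ℝ, ContDiff ℝ 1 φ → HasCompactSupport φ → tsupport φ ⊆ U →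
      - ∫ z, w z * fderiv ℝ φ z v = ∫ z, φ z * σ z ∂μ)
    (φ : ℂ → ℝ) (hφ : ContDiff ℝ 1 φ) (hφc : HasCompactSupport φ) (hφU : tsupport φ ⊆ U) :
    |∫ z, w z ^ 2 * fderiv ℝ φ z v| ≤ 2 * Λ * ∫ z, |φ z| * |σ z| ∂μ := by
  have hloc := locInt w hw Λ hwΛ
  have hφcont := hφ.continuous
  have hDc : Continuous fun z => fderiv ℝ φ z v :=
    (hφ.continuous_fderiv one_ne_zero).clm_apply continuous_const
  have hDs : HasCompactSupport fun z => fderiv ℝ φ z v := hφc.fderiv_apply ℝ v
  have hDi : Integrable (fun z => fderiv ℝ φ z v) volume := hDc.integrable_of_hasCompactSupport hDs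
  obtain ⟨Cφ, hCφ⟩ := hφc.exists_bound_of_continuous hφcont
  have hCφ' : ∀ z, |(fun y => |φ y|) z| ≤ Cφ := by
    intro z
    simp only [abs_abs]
    exact hCφ z
  have hCφ0 : 0 ≤ Cφ := (norm_nonneg _).trans (hCφ 0)
  have hMσ0 : 0 ≤ Mσ := (abs_nonneg _).trans (hσM 0)
  -- convergence of the left side
  have hae : ∀ᵐ z : ℂ, Tendsto (fun n => wn w n z) atTop (𝓝 (w z)) := by
    apply ContDiffBump.ae_convolution_tendsto_right_of_locallyIntegrable (K := 2) rOut_tend _ hloc
    refine Eventually.of_forall fun n => ?_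
    change 1 / ((n : ℝ) + 1) ≤ 2 * (1 / (2 * ((n : ℝ) + 1)))
    apply le_of_eq
    field_simp
  have hL : Tendsto (fun n => ∫ z, wn w n z ^ 2 * fderiv ℝ φ z v) atTop
      (𝓝 (∫ z, w z ^ 2 * fderiv ℝ φ z v)) := by
    apply tendsto_integral_of_dominated_convergence (fun z => Λ ^ 2 * |fderiv ℝ φ z v|)
    · intro n
      exact (((wn_cd w n hloc).continuous.pow 2).mul hDc).aestronglyMeasurable
    · exact hDi.abs.const_mul _
    · intro n
      refine Eventually.of_forall fun z => ?_
      rw [norm_mul, norm_pow]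
      have h1 : ‖wn w n z‖ ≤ Λ := wn_bound w n Λ hwΛ z
      have h2 : ‖wn w n z‖ ^ 2 ≤ Λ ^ 2 := pow_le_pow_left₀ (norm_nonneg _) h1 2
      exact mul_le_mul_of_nonneg_right h2 (norm_nonneg _)
    · filter_upwards [hae] with z hz
      exact (hz.pow 2).mul_const _
  -- convergence of the right side
  have habsloc : LocallyIntegrable (fun y => |φ y|) volume := hφcont.abs.locallyIntegrable
  have hR : Tendsto (fun n => ∫ z, wn (fun y => |φ y|) n z * |σ z| ∂μ) atTop
      (𝓝 (∫ z, |φ z| * |σ z| ∂μ)) := by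
    apply tendsto_integral_of_dominated_convergence (fun _ => Cφ * Mσ)
    · intro n
      exact ((wn_cd _ n habsloc).continuous.aestronglyMeasurable).mul
        hσ.abs.aestronglyMeasurable
    · exact integrable_const _
    · intro n
      refine Eventually.of_forall fun z => ?_
      rw [norm_mul]
      have h1 : ‖wn (fun y => |φ y|) n z‖ ≤ Cφ := wn_bound _ n Cφ hCφ' z
      have h2 : ‖|σ z|‖ ≤ Mσ := by
        rw [Real.norm_eq_abs, abs_abs]
        exact hσM z
      exact mul_le_mul h1 h2 (norm_nonneg _) hCφ0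
    · refine Eventually.of_forall fun z => ?_
      have h1 : Tendsto (fun n => wn (fun y => |φ y|) n z) atTop (𝓝 |φ z|) :=
        ContDiffBump.convolution_tendsto_right_of_continuous rOut_tend hφcont.abs z
      exact h1.mul_const _
  -- the inequality for large `n`
  obtain ⟨δ, hδ, hδU⟩ := hφc.isCompact.exists_cthickening_subset_open hU hφU
  have hev : ∀ᶠ n : ℕ in atTop, |∫ z, wn w n z ^ 2 * fderiv ℝ φ z v| ≤
      2 * Λ * ∫ z, wn (fun y => |φ y|) n z * |σ z| ∂μ := by
    have h0 : ∀ᶠ n : ℕ in atTop, 1 / ((n : ℝ) + 1) < δ :=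
      (tendsto_order.1 tendsto_one_div_add_atTop_nhds_zero_nat).2 δ hδ
    filter_upwards [h0] with n hn
    have hcd := wn_cd w n hloc
    have hdiff : Differentiable ℝ (wn w n) := hcd.differentiable one_ne_zero
    have hDw : Continuous fun z => fderiv ℝ (wn w n) z v :=
      (hcd.continuous_fderiv one_ne_zero).clm_apply continuous_const
    have hfd : ∀ z, fderiv ℝ (fun y => wn w n y ^ 2) z v =
        2 * wn w n z * fderiv ℝ (wn w n) z v := by
      intro z
      have := ((hdiff z).hasFDerivAt.pow 2).fderiv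
      rw [this]
      simp
    have hparts : ∫ z, wn w n z ^ 2 * fderiv ℝ φ z v =
        - ∫ z, fderiv ℝ (fun y => wn w n y ^ 2) z v * φ z := by
      apply integral_mul_fderiv_eq_neg_fderiv_mul_of_integrable
      · apply Continuous.integrable_of_hasCompactSupport
        · simp only [hfd]
          exact ((continuous_const.mul hcd.continuous).mul hDw).mul hφcont
        · exact hφc.mul_left
      · apply Continuous.integrable_of_hasCompactSupport
        · exact (hcd.continuous.pow 2).mul hDc
        · exact hDs.mul_left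
      · apply Continuous.integrable_of_hasCompactSupport
        · exact (hcd.continuous.pow 2).mul hφcont
        · exact hφc.mul_left
      · intro z _
        exact (hdiff z).pow 2
      · intro z _
        exact hφ.differentiable one_ne_zero z
    -- the product function
    let Gf : ℂ → ℂ → ℝ := fun y z => |φ y| * (rh n (y - z) * |σ z|)
    obtain ⟨Cr, hCr⟩ := (rh_cs n).exists_bound_of_continuous (rh_cont n)
    have hCr0 : 0 ≤ Cr := (norm_nonneg _).trans (hCr 0)
    have hGi : Integrable (Function.uncurry Gf) ((volume : Measure ℂ).prod μ) := by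
      have hb : Integrable (fun x : ℂ × ℂ => |φ x.1| * (Cr * Mσ)) ((volume : Measure ℂ).prod μ) := by
        have h1 : Integrable (fun y => |φ y| * (Cr * Mσ)) volume :=
          ((hφcont.integrable_of_hasCompactSupport hφc).abs).mul_const _
        exact h1.comp_fst μ
      apply hb.mono'
      · have m1 : Measurable fun x : ℂ × ℂ => |φ x.1| :=
          (hφcont.abs.measurable).comp measurable_fst
        have m2 : Measurable fun x : ℂ × ℂ => rh n (x.1 - x.2) :=
          (rh_cont n).measurable.comp (measurable_fst.sub measurable_snd)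
        have m3 : Measurable fun x : ℂ × ℂ => |σ x.2| := hσ.abs.comp measurable_snd
        exact (m1.mul (m2.mul m3)).aestronglyMeasurable
      · refine Eventually.of_forall fun x => ?_
        simp only [Function.uncurry, Gf]
        rw [norm_mul, norm_mul, Real.norm_eq_abs, abs_abs]
        have h2 : ‖rh n (x.1 - x.2)‖ * ‖|σ x.2|‖ ≤ Cr * Mσ := by
          apply mul_le_mul (hCr _) _ (norm_nonneg _) hCr0
          rw [Real.norm_eq_abs, abs_abs]
          exact hσM _
        exact mul_le_mul_of_nonneg_left h2 (abs_nonneg _)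
    have hswap : ∫ y, (∫ z, Gf y z ∂μ) = ∫ z, (∫ y, Gf y z) ∂μ := integral_integral_swap hGi
    have hin : ∀ z, ∫ y, Gf y z = wn (fun y => |φ y|) n z * |σ z| := by
      intro z
      rw [wn_eq, ← integral_mul_const]
      apply integral_congr_ae
      refine Eventually.of_forall fun y => ?_
      simp only [Gf]
      have : rh n (y - z) = rh n (z - y) := by
        rw [← rh_neg n (y - z), neg_sub]
      rw [this]
      ring
    have hGl : Integrable (fun y => ∫ z, Gf y z ∂μ) volume := hGi.integral_prod_left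
    rw [hparts, abs_neg]
    have hmain : ‖∫ z, fderiv ℝ (fun y => wn w n y ^ 2) z v * φ z‖ ≤
        ∫ y, 2 * Λ * ∫ z, Gf y z ∂μ := by
      apply norm_integral_le_of_norm_le (hGl.const_mul _)
      refine Eventually.of_forall fun y => ?_
      rw [hfd]
      have hGy : ∫ z, Gf y z ∂μ = |φ y| * ∫ z, rh n (y - z) * |σ z| ∂μ := integral_const_mul _ _
      have hIn0 : 0 ≤ ∫ z, rh n (y - z) * |σ z| ∂μ :=
        integral_nonneg fun z => mul_nonneg (rh_nonneg _ _) (abs_nonneg _)
      by_cases hy : y ∈ tsupport φ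
      · have hball : closedBall y (1 / ((n : ℝ) + 1)) ⊆ U := by
          refine subset_trans ?_ hδU
          refine (closedBall_subset_closedBall hn.le).trans ?_
          exact closedBall_subset_cthickening hy δ
        have hd := wn_fderiv_mu μ w σ U v hloc hyp n y hball
        have hd2 : |fderiv ℝ (wn w n) y v| ≤ ∫ z, rh n (y - z) * |σ z| ∂μ := by
          rw [hd, ← Real.norm_eq_abs]
          have hint : Integrable (fun z => rh n (y - z) * |σ z|) μ := by
            apply Integrable.of_bound (C := Cr * Mσ)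
            · exact (((rh_cont n).measurable.comp (measurable_const.sub measurable_id)).mul
                hσ.abs).aestronglyMeasurable
            · refine Eventually.of_forall fun z => ?_
              rw [norm_mul]
              apply mul_le_mul (hCr _) _ (norm_nonneg _) hCr0
              rw [Real.norm_eq_abs, abs_abs]
              exact hσM _
          apply norm_integral_le_of_norm_le hint
          refine Eventually.of_forall fun z => ?_
          rw [norm_mul, Real.norm_of_nonneg (rh_nonneg _ _), Real.norm_eq_abs]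
        rw [hGy, norm_mul, norm_mul, norm_mul]
        have h1 : ‖wn w n y‖ ≤ Λ := wn_bound w n Λ hwΛ y
        have h2 : ‖(2 : ℝ)‖ = 2 := by norm_num
        rw [h2, Real.norm_eq_abs (fderiv ℝ (wn w n) y v), Real.norm_eq_abs (φ y)]
        calc 2 * ‖wn w n y‖ * |fderiv ℝ (wn w n) y v| * |φ y| ≤
              2 * Λ * (∫ z, rh n (y - z) * |σ z| ∂μ) * |φ y| := by
                apply mul_le_mul_of_nonneg_right _ (abs_nonneg _)
                apply mul_le_mul _ hd2 (abs_nonneg _) (by positivity)
                exact mul_le_mul_of_nonneg_left h1 (by norm_num)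
          _ = _ := by ring
      · have h0 : φ y = 0 := image_eq_zero_of_notMem_tsupport hy
        rw [hGy, h0]
        simp
    have hfin : ∫ y, 2 * Λ * ∫ z, Gf y z ∂μ = 2 * Λ * ∫ z, wn (fun y => |φ y|) n z * |σ z| ∂μ := by
      rw [integral_const_mul, hswap]
      simp only [hin]
    rw [hfin] at hmain
    exact hmain
  exact le_of_tendsto_of_tendsto hL.abs (hR.const_mul (2 * Λ)) hev

open Pool.Agent.W500.CS

theorem main : S_ABS → S_CHN := by
  classical
  intro hABS μ _ d E P z₁ r M hr hE hdisj hP hPM hyp lam Λ v hlam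
  rcases Nat.eq_zero_or_pos d with hd | hd
  · subst hd
    refine Eventually.of_forall fun z _ => ?_
    simp
  have hΛ : 0 ≤ Λ := (abs_nonneg _).trans (hlam ⟨0, hd⟩)
  have hM : 0 ≤ M := (norm_nonneg _).trans (hPM ⟨0, hd⟩ 0)
  -- general sums
  have hPv : ∀ i z, |(P i z * v).re| ≤ M * ‖v‖ := by
    intro i z
    refine (Complex.abs_re_le_norm _).trans ?_
    rw [norm_mul]
    exact mul_le_mul_of_nonneg_right (hPM i z) (norm_nonneg _)
  have hPmeas : ∀ i, Measurable fun z => (P i z * v).re := fun i =>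
    Complex.measurable_re.comp ((hP i).mul_const v)
  -- the sums
  let W : (Fin d → ℝ) → ℂ → ℝ := fun c z => ∑ i, (E i).indicator (fun _ => c i) z
  let Sf : (Fin d → ℝ) → ℂ → ℝ := fun c z => ∑ i, c i * (P i z * v).re
  have hWmeas : ∀ c, Measurable (W c) := fun c =>
    Finset.measurable_sum _ fun i _ => measurable_const.indicator (hE i)
  have hSmeas : ∀ c, Measurable (Sf c) := fun c =>
    Finset.measurable_sum _ fun i _ => (hPmeas i).const_mul _
  have hWval : ∀ c z, (∃ i, z ∈ E i ∧ W c z = c i) ∨ ((∀ i, z ∉ E i) ∧ W c z = 0) := by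
    intro c z
    by_cases h : ∃ i, z ∈ E i
    · obtain ⟨i, hi⟩ := h
      left
      refine ⟨i, hi, ?_⟩
      change ∑ j, (E j).indicator (fun _ => c j) z = c i
      rw [Finset.sum_eq_single i]
      · rw [indicator_of_mem hi]
      · intro j _ hj
        rw [indicator_of_notMem]
        intro hjz
        exact Set.disjoint_left.1 (hdisj j i hj) hjz hi
      · intro h
        exact absurd (Finset.mem_univ i) h
    · push Not at h
      right
      refine ⟨h, ?_⟩
      change ∑ j, (E j).indicator (fun _ => c j) z = 0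
      apply Finset.sum_eq_zero
      intro j _
      rw [indicator_of_notMem (h j)]
  have hWsq : ∀ z, W lam z ^ 2 = W (fun i => lam i ^ 2) z := by
    intro z
    rcases hWval lam z with ⟨i, hi, h1⟩ | ⟨hn, h1⟩
    · rcases hWval (fun i => lam i ^ 2) z with ⟨j, hj, h2⟩ | ⟨hn, h2⟩
      · have : i = j := by
          by_contra hne
          exact Set.disjoint_left.1 (hdisj i j hne) hi hj
        subst this
        rw [h1, h2]
      · exact absurd hi (hn i)
    · rcases hWval (fun i => lam i ^ 2) z with ⟨j, hj, h2⟩ | ⟨_, h2⟩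
      · exact absurd hj (hn j)
      · rw [h1, h2]
        simp
  have hWΛ : ∀ z, |W lam z| ≤ Λ := by
    intro z
    rcases hWval lam z with ⟨i, hi, h1⟩ | ⟨hn, h1⟩
    · rw [h1]
      exact hlam i
    · rw [h1, abs_zero]
      exact hΛ
  have hSb : ∀ c : Fin d → ℝ, ∀ z, |Sf c z| ≤ (∑ i, |c i|) * (M * ‖v‖) := by
    intro c z
    change |∑ i, c i * (P i z * v).re| ≤ _
    rw [Finset.sum_mul]
    refine (Finset.abs_sum_le_sum_abs _ _).trans (Finset.sum_le_sum fun i _ => ?_)
    rw [abs_mul]
    exact mul_le_mul_of_nonneg_left (hPv i z) (abs_nonneg _)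
  have hlin : ∀ (c : Fin d → ℝ) (φ : ℂ → ℝ), ContDiff ℝ 1 φ → HasCompactSupport φ →
      tsupport φ ⊆ ball z₁ r →
      - ∫ z, W c z * fderiv ℝ φ z v = ∫ z, φ z * Sf c z ∂μ := by
    intro c φ hφ hφc hφU
    have hDi : Integrable (fun z => fderiv ℝ φ z v) volume :=
      ((hφ.continuous_fderiv one_ne_zero).clm_apply
        continuous_const).integrable_of_hasCompactSupport (hφc.fderiv_apply ℝ v)
    obtain ⟨Cφ, hCφ⟩ := hφc.exists_bound_of_continuous hφ.continuous
    have h1 : ∫ z, W c z * fderiv ℝ φ z v = ∑ i, c i * ∫ z in E i, fderiv ℝ φ z v := by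
      have e1 : ∀ z, W c z * fderiv ℝ φ z v =
          ∑ i, c i * (E i).indicator (fun z => fderiv ℝ φ z v) z := by
        intro z
        change (∑ i, (E i).indicator (fun _ => c i) z) * fderiv ℝ φ z v = _
        rw [Finset.sum_mul]
        apply Finset.sum_congr rfl
        intro i _
        by_cases hz : z ∈ E i
        · rw [indicator_of_mem hz, indicator_of_mem hz]
        · rw [indicator_of_notMem hz, indicator_of_notMem hz]
          simp
      simp_rw [e1]
      rw [integral_finsetSum _ fun i _ => (hDi.indicator (hE i)).const_mul (c i)]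
      apply Finset.sum_congr rfl
      intro i _
      rw [integral_const_mul, integral_indicator (hE i)]
    have h2 : ∫ z, φ z * Sf c z ∂μ = ∑ i, c i * ∫ z, φ z * (P i z * v).re ∂μ := by
      have e1 : ∀ z, φ z * Sf c z = ∑ i, c i * (φ z * (P i z * v).re) := by
        intro z
        change φ z * ∑ i, c i * (P i z * v).re = _
        rw [Finset.mul_sum]
        apply Finset.sum_congr rfl
        intro i _
        ring
      simp_rw [e1]
      rw [integral_finsetSum]
      · apply Finset.sum_congr rfl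
        intro i _
        rw [integral_const_mul]
      · intro i _
        apply Integrable.const_mul
        apply Integrable.of_bound (C := Cφ * (M * ‖v‖))
        · exact (hφ.continuous.measurable.mul (hPmeas i)).aestronglyMeasurable
        · refine Eventually.of_forall fun z => ?_
          rw [norm_mul]
          exact mul_le_mul (hCφ z) (hPv i z) (norm_nonneg _) ((norm_nonneg _).trans (hCφ 0))
    rw [h1, h2, ← Finset.sum_neg_distrib]
    apply Finset.sum_congr rfl
    intro i _
    rw [← hyp i φ hφ hφc hφU v]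
    ring
  -- conclusion
  have hfin := hABS μ (ball z₁ r) (Sf fun i => lam i ^ 2) (fun z => 2 * Λ * |Sf lam z|)
    (max ((∑ i, |lam i ^ 2|) * (M * ‖v‖)) (2 * Λ * ((∑ i, |lam i|) * (M * ‖v‖)))) isOpen_ball
    (hSmeas _) ((hSmeas lam).abs.const_mul _)
    (fun z => (hSb _ z).trans (le_max_left _ _))
    (fun z => by
      refine le_trans ?_ (le_max_right _ _)
      rw [abs_mul, abs_abs, abs_of_nonneg (by positivity : (0 : ℝ) ≤ 2 * Λ)]
      exact mul_le_mul_of_nonneg_left (hSb _ z) (by positivity))
    (fun φ hφ hφc hφU => by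
      have h1 := core μ (W lam) (Sf lam) Λ ((∑ i, |lam i|) * (M * ‖v‖)) hΛ (hWmeas lam) hWΛ
        (hSmeas lam) (hSb lam) (ball z₁ r) isOpen_ball v (hlin lam) φ hφ hφc hφU
      simp_rw [hWsq] at h1
      have h2 := hlin (fun i => lam i ^ 2) φ hφ hφc hφU
      rw [← h2, abs_neg]
      refine h1.trans (le_of_eq ?_)
      rw [← integral_const_mul]
      apply integral_congr_ae
      refine Eventually.of_forall fun z => ?_
      simp only
      ring)
  exact hfin

end Pool.Agent.W391.CQ.Chn


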